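import Mathlib
import Pool.Agent.Work.MP_db4788_co.Gadget

set_option autoImplicit false

namespace Pool.Agent.Work.MP_db4788_co.Parked.TwoFifths

/-- If `5 a < 22 m`, some finite graph with no `K5` minor and no `K3,3` minor (that is, a planar
graph) is not `(a, m)`-choosable. -/
theorem result (a m : ℕ) (h : 5 * a < 22 * m) :
    ∃ (V : Type) (_ : Fintype V) (G : SimpleGraph V),
      (¬ ∃ f : Fin 5 → Set V,
          (∀ i j, i ≠ j → Disjoint (f i) (f j)) ∧
          (∀ i, (G.induce (f i)).Connected) ∧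
          (∀ i j, i ≠ j → ∃ u ∈ f i, ∃ v ∈ f j, G.Adj u v)) ∧
      (¬ ∃ f : Bool × Fin 3 → Set V,
          (∀ i j, i ≠ j → Disjoint (f i) (f j)) ∧
          (∀ i, (G.induce (f i)).Connected) ∧
          (∀ a b : Fin 3, ∃ u ∈ f (false, a), ∃ v ∈ f (true, b), G.Adj u v)) ∧
      ∃ L : V → Finset ℕ, (∀ v, (L v).card = a) ∧
        ¬ ∃ C : V → Finset ℕ, (∀ v, C v ⊆ L v ∧ (C v).card = m) ∧
          ∀ u v, G.Adj u v → Disjoint (C u) (C v) := by
  obtain ⟨N, L, hL, hno⟩ :=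
    Pool.Agent.Work.MP_db4788_co.exists_not_choosable m (a - 4 * m) (by omega)
  refine ⟨Pool.Agent.Work.MP_db4788_co.Vx N, inferInstance,
    Pool.Agent.Work.MP_db4788_co.graph N,
    Pool.Agent.Lib.TwoPage.no_K5_minor Pool.Agent.Work.MP_db4788_co.lt_anti
      (Pool.Agent.Work.MP_db4788_co.noCross N),
    Pool.Agent.Lib.TwoPage.no_K33_minor Pool.Agent.Work.MP_db4788_co.lt_anti
      (Pool.Agent.Work.MP_db4788_co.noCross N), ?_⟩
  have hs : ∀ v, ∃ s ⊆ L v, s.card = a := fun v =>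
    Finset.exists_subset_card_eq (by rw [hL v]; omega)
  choose L' hL' hc using hs
  refine ⟨L', hc, ?_⟩
  rintro ⟨C, hC, hadj⟩
  exact hno ⟨C, fun v => ⟨(hC v).1.trans (hL' v), (hC v).2⟩, hadj⟩

end Pool.Agent.Work.MP_db4788_co.Parked.TwoFifths
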